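import Pool.Agent.SZG.StmtsM

/-!
Squad SZG, row TCG: congruence of tensor products.
-/

set_option autoImplicit false

namespace Pool.Agent.SZG.H81

open scoped BigOperators
open Pool.Agent.THS

lemma tcg_le_nv {K ι : Type} [Field K] [Finite ι] (v : AbsoluteValue K ℝ) (x : ι → K) (i : ι) :
    v (x i) ≤ nv v x :=
  le_ciSup (f := fun i => v (x i)) (Set.finite_range _).bddAbove i

lemma tcg_nv_pos {K ι : Type} [Field K] [Finite ι] (v : AbsoluteValue K ℝ) {x : ι → K}
    (hx : x ≠ 0) : 0 < nv v x := by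
  obtain ⟨i, hi⟩ := Function.ne_iff.mp hx
  exact lt_of_lt_of_le (v.pos hi) (tcg_le_nv v x i)

lemma tcg_sum {K ι : Type} [Field K] {v : AbsoluteValue K ℝ} (hv : IsNonarchimedean v)
    (s : Finset ι) (f : ι → K) {C : ℝ} (hC : 0 ≤ C) (h : ∀ i ∈ s, v (f i) ≤ C) :
    v (∑ i ∈ s, f i) ≤ C := by
  classical
  induction s using Finset.induction_on with
  | empty => simpa using hC
  | insert a s ha ih =>
    rw [Finset.sum_insert ha]
    exact (hv _ _).trans (max_le (h a (Finset.mem_insert_self _ _))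
      (ih fun i hi => h i (Finset.mem_insert_of_mem hi)))

lemma tcg_sub {K : Type} [Field K] {v : AbsoluteValue K ℝ} (hv : IsNonarchimedean v) {x y : K}
    {C : ℝ} (hx : v x ≤ C) (hy : v y ≤ C) : v (x - y) ≤ C := by
  rw [sub_eq_add_neg]
  exact (hv _ _).trans (max_le hx (by rwa [v.map_neg]))

lemma tcg_sgn {K : Type} [Field K] (v : AbsoluteValue K ℝ) {g : ℕ} (b c : Fin g → ZMod 2) :
    v (sgn b c : K) = 1 := by
  unfold sgn
  push_cast
  rw [map_pow, v.map_neg, map_one, one_pow]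

theorem tcg (hRGI : RgiStmt) (hTCS : TcsStmt) (hXUB : XubStmt) (hWXC : WxcStmt) : TcgStmt := by
  intro K I _ _ v θ g E L0 c e s T x W X Z δ H n u m o ho
  have hna := H.na
  obtain ⟨hW0, -, -, -, -, -, -, -⟩ := hWXC K I v L0 c e W X H.wx
  have hWp := H.wx.pos
  have hT0 : 0 < nv v (T 0) := tcg_nv_pos v (H.qs.T0 0)
  have hx0 : 0 < nv v (x 0) := tcg_nv_pos v (H.qs.x0 0)
  have hTo : T 0 o ≠ 0 := by
    intro h
    rw [h, map_zero] at ho
    exact hT0.ne ho
  -- canonical points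
  have hcan : ∀ n' u' : ℤ, nv v (x (n' • Z + u' • δ)) = nv v (x 0) * W (n' • Z + u' • δ) ^ 2 := by
    intro n' u'
    have h := (hXUB K I v g E L0 c e s T x W X H.qs H.wx hna H.v2 (n' • Z + u' • δ) 0).2.2.2.2.1
    apply h
    have e1 : (2 : ℕ) • (n' • Z + u' • δ) = (2 * n') • Z + (2 * u') • δ := by
      rw [two_nsmul, two_mul, two_mul, add_smul, add_smul]
      abel
    rw [e1]
    exact H.can _ _
  have hs0 : v s * nv v (x 0) ^ 2 = nv v (T 0) ^ 2 :=
    (hXUB K I v g E L0 c e s T x W X H.qs H.wx hna H.v2 0 0).2.2.2.1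
  obtain ⟨j, hj⟩ : ∃ j : I, j = m • δ := ⟨_, rfl⟩
  have hxj : nv v (x j) = nv v (x 0) * W j ^ 2 := by
    have h := hcan 0 m
    rw [zero_smul, zero_add, ← hj] at h
    exact h
  obtain ⟨κ, hκ0, hκ1, hκ2, -⟩ := hTCS K (Ch g × Ch g) v θ (x j) (x 0) hna H.th0.le H.th1
    (H.qs.x0 j) (H.qs.x0 0) (by rw [hj]; exact H.hb m)
  have hvκ : v κ = W j ^ 2 := by
    rw [hxj, mul_comm (v κ)] at hκ1
    exact mul_left_cancel₀ hx0.ne' hκ1
  have h2g : v ((2 : K) ^ g) = 1 := by rw [map_pow, H.v2, one_pow]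
  -- the congruence with `κ`
  have key : ∀ n' u' : ℤ, ∀ e' d : Ch g, v (T (n' • Z + u' • δ + j) e' * T (n' • Z + u' • δ - j) d -
      κ * (T (n' • Z + u' • δ) e' * T (n' • Z + u' • δ) d)) ≤
      θ * (nv v (T 0) ^ 2 * W (n' • Z + u' • δ) ^ 2 * W j ^ 2) := by
    intro n' u' e' d
    have hxi := hcan n' u'
    obtain ⟨i, hi⟩ : ∃ i : I, i = n' • Z + u' • δ := ⟨_, rfl⟩
    rw [← hi] at hxi ⊢
    have hCn : 0 ≤ θ * (nv v (T 0) ^ 2 * W i ^ 2 * W j ^ 2) := by
      have := H.th0.le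
      positivity
    have h1 := hRGI g K I T (e' - d) d i j
    have h2 := hRGI g K I T (e' - d) d i 0
    rw [sub_add_cancel] at h1 h2
    rw [add_zero, sub_zero] at h2
    have h3 : (2 : K) ^ g * (T (i + j) e' * T (i - j) d - κ * (T i e' * T i d)) =
        ∑ b : Ch g, (sgn b e' : K) * (s * (x i (e' - d, b) * (x j (e' - d, b) -
          κ * x 0 (e' - d, b)))) := by
      have h4 : (2 : K) ^ g * (T (i + j) e' * T (i - j) d - κ * (T i e' * T i d)) =
          (2 : K) ^ g * (T (i + j) e' * T (i - j) d) - κ * ((2 : K) ^ g * (T i e' * T i d)) := by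
        ring
      rw [h4, ← h1, ← h2, Finset.mul_sum, ← Finset.sum_sub_distrib]
      refine Finset.sum_congr rfl fun b _ => ?_
      rw [H.qs.rie, H.qs.rie]
      ring
    have h5 : v ((2 : K) ^ g * (T (i + j) e' * T (i - j) d - κ * (T i e' * T i d))) ≤
        θ * (nv v (T 0) ^ 2 * W i ^ 2 * W j ^ 2) := by
      rw [h3]
      refine tcg_sum hna _ _ hCn fun b _ => ?_
      rw [map_mul, tcg_sgn, one_mul, map_mul, map_mul]
      have a1 : v (x i (e' - d, b)) ≤ nv v (x i) := tcg_le_nv v (x i) _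
      have a2 := hκ2 (e' - d, b)
      calc v s * (v (x i (e' - d, b)) * v (x j (e' - d, b) - κ * x 0 (e' - d, b))) ≤
          v s * (nv v (x i) * (θ * nv v (x j))) := by
            apply mul_le_mul_of_nonneg_left _ (v.nonneg _)
            exact mul_le_mul a1 a2 (v.nonneg _) ((v.nonneg _).trans a1)
        _ = θ * ((v s * nv v (x 0) ^ 2) * W i ^ 2 * W j ^ 2) := by
            rw [hxi, hxj]
            ring
        _ = θ * (nv v (T 0) ^ 2 * W i ^ 2 * W j ^ 2) := by rw [hs0]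
    rwa [map_mul, h2g, one_mul] at h5
  -- the constant `κ` and `A ^ 2`
  obtain ⟨A, hA⟩ : ∃ A : K, A = T j o / T 0 o := ⟨_, rfl⟩
  have hAκ : v (A ^ 2 - κ) ≤ θ * W j ^ 2 := by
    have h1 := key 0 0 o o
    have e0 : (0 : ℤ) • Z + (0 : ℤ) • δ = 0 := by rw [zero_smul, zero_smul, add_zero]
    rw [e0, zero_add, zero_sub, H.qs.even, hW0] at h1
    have h2 : T j o * T j o - κ * (T 0 o * T 0 o) = (A ^ 2 - κ) * (T 0 o) ^ 2 := by
      rw [hA]
      field_simp
    rw [h2, map_mul, map_pow, ho] at h1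
    have h3 : θ * (nv v (T 0) ^ 2 * 1 ^ 2 * W j ^ 2) = (θ * W j ^ 2) * nv v (T 0) ^ 2 := by ring
    rw [h3] at h1
    exact le_of_mul_le_mul_right h1 (by positivity)
  have hWj := hWp j
  have hlt : θ * W j ^ 2 < W j ^ 2 := by
    have := H.th1
    have h1 : 0 < W j ^ 2 := by positivity
    nlinarith
  have hvA2 : v (A ^ 2) = W j ^ 2 := by
    apply le_antisymm
    · have e1 : A ^ 2 = (A ^ 2 - κ) + κ := by ring
      rw [e1]
      exact (hna _ _).trans (max_le (hAκ.trans hlt.le) hvκ.le)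
    · by_contra hcon
      push Not at hcon
      have e1 : κ = A ^ 2 + -(A ^ 2 - κ) := by ring
      have h1 : v κ < W j ^ 2 := by
        conv_lhs => rw [e1]
        refine (hna _ _).trans_lt (max_lt hcon ?_)
        rw [v.map_neg]
        exact hAκ.trans_lt hlt
      rw [hvκ] at h1
      exact lt_irrefl _ h1
  have hvA : v A = W j := by
    rw [map_pow] at hvA2
    exact (pow_left_inj₀ (v.nonneg _) hWj.le two_ne_zero).mp hvA2
  rw [← hj, ← hA]
  refine ⟨hvA, ?_⟩
  intro e' d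
  have hTi := H.can n u
  obtain ⟨i, hi⟩ : ∃ i : I, i = n • Z + u • δ := ⟨_, rfl⟩
  have hk := key n u e' d
  rw [← hi] at hTi hk ⊢
  have e1 : T (i + j) e' * T (i - j) d - A ^ 2 * (T i e' * T i d) =
      (T (i + j) e' * T (i - j) d - κ * (T i e' * T i d)) - (A ^ 2 - κ) * (T i e' * T i d) := by
    ring
  rw [e1]
  refine tcg_sub hna hk ?_
  rw [map_mul, map_mul]
  have a1 : v (T i e') ≤ nv v (T i) := tcg_le_nv v (T i) e'
  have a2 : v (T i d) ≤ nv v (T i) := tcg_le_nv v (T i) d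
  have hTi0 : 0 ≤ nv v (T i) := (v.nonneg _).trans a1
  calc v (A ^ 2 - κ) * (v (T i e') * v (T i d)) ≤ (θ * W j ^ 2) * (nv v (T i) * nv v (T i)) := by
        apply mul_le_mul hAκ (mul_le_mul a1 a2 (v.nonneg _) hTi0)
        · exact mul_nonneg (v.nonneg _) (v.nonneg _)
        · exact mul_nonneg H.th0.le (by positivity)
    _ = θ * (nv v (T 0) ^ 2 * W i ^ 2 * W j ^ 2) := by
        rw [hTi]
        ring

end Pool.Agent.SZG.H81
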